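import Mathlib.Algebra.Category.ModuleCat.Basic
import Mathlib.CategoryTheory.Preadditive.AdditiveFunctor
import Mathlib.CategoryTheory.Endomorphism
import Mathlib.Tactic

/-!
# Self-duality of motives of weight `n` excludes phantom motives

Let `C` be the category of Chow motives over a field, with rational coefficients. Suppose that every
motive `M` of weight `n` (a direct summand of `h^n(X)` for a Chow-Künneth decomposition of some `X`)
satisfies `M^∨ ≅ M(n)`. Then every motive without cohomology which is a direct summand of `h^n(X)`,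
`dim X > 0`, is zero, and the weight of a nonzero motive is unique. So every homologically trivial
projector `e` with `e π_n = π_n e = e`, for a Chow-Künneth decomposition `π` of a smooth projective `X`
of positive dimension `d`, is zero in `CH^d(X × X)_ℚ`.

Proof: if `M` is a direct summand of `h^n(X)` without cohomology then `M` can be moved into every other
piece `h^j(X)` of the Chow-Künneth decomposition. So `M` has two weights `n ≠ j`, and
`M(n) ≅ M^∨ ≅ M(j)`. This is impossible for `M ≠ 0` because `Hom(h(X), h(X)(m)) = CH^(d + m)(X × X)` is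
zero for `m > d`.

Example: let `X` be a surface with `p_g = 0`, and `t_2(X)` its transcendental motive (Kahn, Murre,
Pedrini), a direct summand of `h^2(X)` with cohomology zero. It is zero if and only if Bloch's
conjecture is true for `X`. So the self-duality of all motives of weight `2` implies Bloch's conjecture
for all surfaces with `p_g = 0`.
-/

set_option autoImplicit false

open CategoryTheory Limits

universe v u w

namespace Pool.Agent.Results.MP_191b91_ag.PhantomMotives

/-- The data of Chow motives: the varieties (smooth, projective, equidimensional), their dimensions and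
motives, the Tate twists `M(n)`, the dual `M^∨`, and the cohomology groups `H i M`. -/
structure Motives (C : Type u) [Category.{v} C] [Preadditive C] (K : Type w) [Field K] where
  Var : Type u
  dim : Var → ℕ
  h : Var → C
  tw : ℤ → C ⥤ C
  dual : C → C
  H : ℤ → C ⥤ ModuleCat.{w} K

variable {C : Type u} [Category.{v} C] [Preadditive C] {K : Type w} [Field K]

/-- The standard properties used:

* `tw_zero`, `tw_add`: the Tate twists;
* `hom_zero`: `Hom(h X, h Y (n)) = CH^(dim X + n)(X × Y)_ℚ` is zero if `n > dim Y`. -/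
structure IsMotives (D : Motives C K) : Prop where
  tw_additive : ∀ n, (D.tw n).Additive
  H_additive : ∀ i, (D.H i).Additive
  tw_zero : Nonempty (D.tw 0 ≅ 𝟭 C)
  tw_add : ∀ m n : ℤ, Nonempty (D.tw (m + n) ≅ D.tw m ⋙ D.tw n)
  hom_zero : ∀ (X Y : D.Var) (n : ℤ), (D.dim Y : ℤ) < n → ∀ f : D.h X ⟶ (D.tw n).obj (D.h Y), f = 0

/-- `π_0, …, π_(2d)` is a Chow-Künneth decomposition of `X`: orthogonal projectors with sum `1`, where
`π_i` acts as zero on `H^j(X)` for `j ≠ i`. -/
structure IsCK (D : Motives C K) (X : D.Var) (π : Fin (2 * D.dim X + 1) → End (D.h X)) : Prop where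
  idem : ∀ i, π i * π i = π i
  orth : ∀ i j, i ≠ j → π i * π j = 0
  sum : ∑ i, π i = 1
  coh : ∀ (i : Fin (2 * D.dim X + 1)) (j : ℤ), j ≠ (i : ℕ) → (D.H j).map (π i : D.h X ⟶ D.h X) = 0

/-- `M` is a direct summand of `h^n(X) = (X, π_n)`: it is the image of a projector `e = r ≫ s` with
`e π_n = π_n e = e`. -/
def IsSummand (D : Motives C K) {X : D.Var} (M : C) (p : End (D.h X)) : Prop :=
  ∃ (s : M ⟶ D.h X) (r : D.h X ⟶ M), s ≫ r = 𝟙 M ∧ (show End (D.h X) from r ≫ s) * p = r ≫ s ∧
    p * (show End (D.h X) from r ≫ s) = r ≫ s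

/-- `M` has weight `n`: it is a direct summand of `h^n(X)` for a smooth projective `X` and a
Chow-Künneth decomposition of `X`. -/
def HasWeight (D : Motives C K) (M : C) (n : ℕ) : Prop :=
  ∃ (X : D.Var) (π : Fin (2 * D.dim X + 1) → End (D.h X)) (i : Fin (2 * D.dim X + 1)),
    IsCK D X π ∧ (i : ℕ) = n ∧ IsSummand D M (π i)

/-- The assertion of Q1: `M^∨ ≅ M(n)` for all motives `M` of weight `n`. -/
def SelfDuality (D : Motives C K) : Prop :=
  ∀ (M : C) (n : ℕ), HasWeight D M n → Nonempty (D.dual M ≅ (D.tw n).obj M)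

/-- A phantom: all cohomology groups are zero. -/
def IsPhantom (D : Motives C K) (M : C) : Prop := ∀ j, IsZero ((D.H j).obj M)

section ring

variable {A : Type*} [Ring A] {ι : Type*} [Fintype ι] [DecidableEq ι]

/-- Moving a projector from one piece of a decomposition to another. -/
def move (π : ι → A) (n j : ι) (e : A) : ι → A := fun i =>
  π i + (if i = j then e else 0) - (if i = n then e else 0)

lemma move_spec {π : ι → A} (h1 : ∀ i, π i * π i = π i) (h2 : ∀ i j, i ≠ j → π i * π j = 0)
    (h3 : ∑ i, π i = 1) {n j : ι} (hnj : n ≠ j) {e : A} (he : e * e = e) (e1 : e * π n = e)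
    (e2 : π n * e = e) :
    (∀ i, move π n j e i * move π n j e i = move π n j e i) ∧
    (∀ i l, i ≠ l → move π n j e i * move π n j e l = 0) ∧ ∑ i, move π n j e i = 1 ∧
    e * move π n j e j = e ∧ move π n j e j * e = e := by
  have a1 : ∀ i, i ≠ n → e * π i = 0 := fun i hi => by
    rw [← e1, mul_assoc, h2 n i (Ne.symm hi), mul_zero]
  have a2 : ∀ i, i ≠ n → π i * e = 0 := fun i hi => by
    rw [← e2, ← mul_assoc, h2 i n hi, zero_mul]
  have b1 : ∀ i, e * π i = if i = n then e else 0 := fun i => by
    by_cases hi : i = n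
    · rw [if_pos hi, hi, e1]
    · rw [if_neg hi, a1 i hi]
  have b2 : ∀ i, π i * e = if i = n then e else 0 := fun i => by
    by_cases hi : i = n
    · rw [if_pos hi, hi, e2]
    · rw [if_neg hi, a2 i hi]
  refine ⟨fun i => ?_, fun i l hil => ?_, ?_, ?_, ?_⟩
  · unfold move
    by_cases hi : i = n
    · subst hi
      rw [if_neg hnj, if_pos rfl, add_zero, sub_mul, mul_sub, mul_sub, h1, e1, e2, he]
      abel
    · by_cases hj : i = j
      · subst hj
        rw [if_neg hi, if_pos rfl, sub_zero, add_mul, mul_add, mul_add, h1, a1 i hi, a2 i hi, he]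
        abel
      · rw [if_neg hi, if_neg hj, add_zero, sub_zero, h1]
  · unfold move
    have c1 : (if i = j then e else 0) * π l = if i = j then (if l = n then e else 0) else 0 := by
      split_ifs with x y <;> simp_all
    have c2 : (if i = n then e else 0) * π l = if i = n then (if l = n then e else 0) else 0 := by
      split_ifs with x y <;> simp_all
    by_cases hin : i = n
    · subst hin
      have hl : l ≠ i := Ne.symm hil
      rw [if_neg hnj, if_pos rfl, if_neg hl, add_zero, sub_zero, sub_mul, mul_add, mul_add,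
        h2 i l hil, a1 l hl]
      by_cases hlj : l = j
      · rw [if_pos hlj, e2, he]; abel
      · rw [if_neg hlj]; simp
    · by_cases hij : i = j
      · subst hij
        have hl : l ≠ i := Ne.symm hil
        rw [if_neg hin, if_pos rfl, if_neg hl, add_zero, sub_zero, add_mul, mul_sub, mul_sub,
          h2 i l hil]
        by_cases hln : l = n
        · rw [if_pos hln, a2 i hin, hln, e1, he]; abel
        · rw [if_neg hln, a1 l hln]; simp
      · rw [if_neg hin, if_neg hij, add_zero, sub_zero, mul_sub, mul_add, h2 i l hil]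
        by_cases hlj : l = j
        · have hln : l ≠ n := fun h => hnj (h.symm.trans hlj)
          rw [if_pos hlj, if_neg hln, a2 i hin]; simp
        · by_cases hln : l = n
          · rw [if_neg hlj, if_pos hln, a2 i hin]; simp
          · rw [if_neg hlj, if_neg hln]; simp
  · unfold move
    rw [Finset.sum_sub_distrib, Finset.sum_add_distrib, h3]
    simp
  · unfold move
    rw [if_pos rfl, if_neg (Ne.symm hnj), sub_zero, mul_add, a1 j (Ne.symm hnj), he, zero_add]
  · unfold move
    rw [if_pos rfl, if_neg (Ne.symm hnj), sub_zero, add_mul, a2 j (Ne.symm hnj), he, zero_add]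

end ring


variable {D : Motives C K}

section twist

/-- A direct summand of a motive of a variety which is isomorphic to its twist is zero. -/
lemma isZero_of_pos (hD : IsMotives D) {X : D.Var} {M : C} (s : M ⟶ D.h X) (r : D.h X ⟶ M)
    (hs : s ≫ r = 𝟙 M) {m : ℤ} (hm : 0 < m) (e : Nonempty (M ≅ (D.tw m).obj M)) : IsZero M := by
  have h1 : ∀ j : ℕ, Nonempty (M ≅ (D.tw (j * m)).obj M) := by
    intro j
    induction j with
    | zero =>
      rw [Nat.cast_zero, zero_mul]
      exact ⟨(hD.tw_zero.some.app M).symm⟩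
    | succ j ih =>
      have h2 := (hD.tw_add m (j * m)).some.app M
      rw [show (m + j * m : ℤ) = ((j + 1 : ℕ) : ℤ) * m by push_cast; ring] at h2
      exact ⟨ih.some ≪≫ (D.tw (j * m)).mapIso e.some ≪≫ h2.symm⟩
  have h3 : (D.dim X : ℤ) < ((D.dim X + 1 : ℕ) : ℤ) * m := by
    push_cast
    nlinarith
  obtain ⟨φ⟩ := h1 (D.dim X + 1)
  have h4 := hD.hom_zero X X _ h3 (r ≫ φ.hom ≫ (D.tw (((D.dim X + 1 : ℕ) : ℤ) * m)).map s)
  have h5 : φ.hom = 0 := by
    have h6 : s ≫ (r ≫ φ.hom ≫ (D.tw (((D.dim X + 1 : ℕ) : ℤ) * m)).map s) ≫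
        (D.tw (((D.dim X + 1 : ℕ) : ℤ) * m)).map r = φ.hom := by
      simp only [Category.assoc]
      rw [← Functor.map_comp, hs, CategoryTheory.Functor.map_id, Category.comp_id,
        ← Category.assoc, hs, Category.id_comp]
    rw [← h6, h4, zero_comp, comp_zero]
  rw [IsZero.iff_id_eq_zero, ← φ.hom_inv_id, h5, zero_comp]

lemma isZero_of_twist (hD : IsMotives D) {X : D.Var} {M : C} (s : M ⟶ D.h X) (r : D.h X ⟶ M)
    (hs : s ≫ r = 𝟙 M) {a b : ℤ} (hab : a ≠ b)
    (e : Nonempty ((D.tw a).obj M ≅ (D.tw b).obj M)) : IsZero M := by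
  have h2 : Nonempty (M ≅ (D.tw (b - a)).obj M) := by
    have f1 := (hD.tw_add a (-a)).some.app M
    have f2 := (hD.tw_add b (-a)).some.app M
    rw [add_neg_cancel] at f1
    rw [← sub_eq_add_neg] at f2
    exact ⟨(hD.tw_zero.some.app M).symm ≪≫ f1 ≪≫ (D.tw (-a)).mapIso e.some ≪≫ f2.symm⟩
  rcases lt_or_gt_of_ne hab with h | h
  · exact isZero_of_pos hD s r hs (sub_pos.mpr h) h2
  · have f1 := (hD.tw_add (b - a) (a - b)).some.app M
    rw [show b - a + (a - b) = (0 : ℤ) by ring] at f1
    refine isZero_of_pos hD s r hs (sub_pos.mpr h) ?_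
    exact ⟨(hD.tw_zero.some.app M).symm ≪≫ f1 ≪≫ (D.tw (a - b)).mapIso h2.some.symm⟩

/-- A nonzero motive has only one weight. -/
lemma weight_unique (hD : IsMotives D) (h : SelfDuality D) {M : C} {m n : ℕ}
    (hm : HasWeight D M m) (hn : HasWeight D M n) (hM : ¬ IsZero M) : m = n := by
  by_contra hmn
  obtain ⟨e1⟩ := h M m hm
  obtain ⟨e2⟩ := h M n hn
  obtain ⟨X, π, i, -, -, s, r, hs, -⟩ := hm
  exact hM (isZero_of_twist hD s r hs (a := (m : ℤ)) (b := (n : ℤ)) (by exact_mod_cast hmn)
    ⟨e1.symm ≪≫ e2⟩)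

end twist

lemma map_phantom {M : C} (hM : IsPhantom D M) (X : D.Var) (s : M ⟶ D.h X) (r : D.h X ⟶ M)
    (j : ℤ) : (D.H j).map (r ≫ s) = 0 := by
  rw [Functor.map_comp, (hM j).eq_of_tgt ((D.H j).map r) 0, zero_comp]

/-- A phantom in one piece has the weights of all other pieces. -/
lemma weight_move (hH : ∀ i, (D.H i).Additive) {X : D.Var} {π : Fin (2 * D.dim X + 1) → End (D.h X)}
    (hπ : IsCK D X π) {M : C} (hM : IsPhantom D M) {n : Fin (2 * D.dim X + 1)}
    (h : IsSummand D M (π n)) (j : Fin (2 * D.dim X + 1)) (hj : n ≠ j) : HasWeight D M j := by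
  obtain ⟨s, r, hs, h1, h2⟩ := h
  have he : (show End (D.h X) from r ≫ s) * (show End (D.h X) from r ≫ s) = r ≫ s := by
    rw [End.mul_def]
    change (r ≫ s) ≫ (r ≫ s) = r ≫ s
    rw [Category.assoc, ← Category.assoc s, hs, Category.id_comp]
  obtain ⟨a1, a2, a3, a4, a5⟩ := move_spec hπ.idem hπ.orth hπ.sum hj he h1 h2
  refine ⟨X, move π n j (show End (D.h X) from r ≫ s), j, ⟨a1, a2, a3, fun i l hl => ?_⟩, rfl,
    s, r, hs, a4, a5⟩
  have hHl := hH l
  have b1 := map_phantom hM X s r l
  have b2 := hπ.coh i l hl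
  have b3 : ∀ q : Prop, ∀ [Decidable q], (D.H l).map (if q then r ≫ s else 0 : D.h X ⟶ D.h X) = 0 := by
    intro q _
    split_ifs
    · exact b1
    · exact Functor.map_zero _ _ _
  have b4 : ∀ x y z : D.h X ⟶ D.h X, (D.H l).map x = 0 → (D.H l).map y = 0 → (D.H l).map z = 0 →
      (D.H l).map (x + y - z) = 0 := by
    intro x y z hx hy hz
    rw [Functor.map_sub, Functor.map_add, hx, hy, hz, add_zero, sub_zero]
  exact b4 _ _ _ b2 (b3 (i = j)) (b3 (i = n))

/-- **Self-duality of motives of weight `n` excludes phantoms.** Suppose that `M^∨ ≅ M(n)` for all motives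
`M` of weight `n`.

1. A nonzero motive has at most one weight.
2. Every motive `M` without cohomology which is a direct summand of `h^n(X)`, for a Chow-Künneth
   decomposition of a variety `X` of positive dimension, is zero.
3. Every projector `e = r ≫ s` in `End(h(X))` which acts as zero on the cohomology of `X` and satisfies
   `e π_n = π_n e = e`, for a Chow-Künneth decomposition `π` of a variety `X` of positive dimension, is
   zero. -/
theorem result (hD : IsMotives D) (h : SelfDuality D) :
    (∀ (M : C) (m n : ℕ), HasWeight D M m → HasWeight D M n → ¬ IsZero M → m = n) ∧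
    (∀ (X : D.Var) (π : Fin (2 * D.dim X + 1) → End (D.h X)) (i : Fin (2 * D.dim X + 1)) (M : C),
      0 < D.dim X → IsCK D X π → IsSummand D M (π i) → IsPhantom D M → IsZero M) ∧
    ∀ (X : D.Var) (π : Fin (2 * D.dim X + 1) → End (D.h X)) (i : Fin (2 * D.dim X + 1)) (M : C)
      (s : M ⟶ D.h X) (r : D.h X ⟶ M), 0 < D.dim X → IsCK D X π → s ≫ r = 𝟙 M →
      (show End (D.h X) from r ≫ s) * π i = r ≫ s → π i * (show End (D.h X) from r ≫ s) = r ≫ s →
      (∀ j, (D.H j).map (r ≫ s) = 0) → r ≫ s = 0 := by
  have h2 : ∀ (X : D.Var) (π : Fin (2 * D.dim X + 1) → End (D.h X)) (i : Fin (2 * D.dim X + 1))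
      (M : C), 0 < D.dim X → IsCK D X π → IsSummand D M (π i) → IsPhantom D M → IsZero M := by
    intro X π i M hd hπ hs hM
    by_contra h0
    have h2 : ∃ j : Fin (2 * D.dim X + 1), i ≠ j := by
      by_cases hi0 : (i : ℕ) = 0
      · exact ⟨⟨1, by omega⟩, fun h => by rw [h] at hi0; simp at hi0⟩
      · exact ⟨⟨0, by omega⟩, fun h => by rw [h] at hi0; simp at hi0⟩
    obtain ⟨j, hj⟩ := h2
    have h3 := weight_move hD.H_additive hπ hM hs j hj
    exact hj (Fin.ext (weight_unique hD h ⟨X, π, i, hπ, rfl, hs⟩ h3 h0))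
  refine ⟨fun M m n hm hn hM => weight_unique hD h hm hn hM, h2, ?_⟩
  intro X π i M s r hd hπ hs h1 h3 hz
  have hM : IsPhantom D M := by
    intro j
    rw [IsZero.iff_id_eq_zero, ← CategoryTheory.Functor.map_id, ← hs]
    have e : s ≫ r = s ≫ (r ≫ s) ≫ r := by
      rw [Category.assoc, hs, Category.comp_id, hs]
    rw [e, Functor.map_comp, Functor.map_comp, hz, zero_comp, comp_zero]
  have h4 := h2 X π i M hd hπ ⟨s, r, hs, h1, h3⟩ hM
  rw [h4.eq_of_tgt r 0, zero_comp]

end Pool.Agent.Results.MP_191b91_ag.PhantomMotives
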